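import Mathlib
import Pool.Agent.ZStar.Defs
import Pool.Agent.ZStar.NotZ
import Pool.Agent.ZStar.Rep

/-!
# A simple C*-algebra with no injective operator in any representation that is not a Z*-algebra
(MP_098288_an, Q1)

There is a simple C*-algebra `A` which is not a `Z*`-algebra, although for every representation
`π : A → B(H)` on a nonzero Hilbert space and every `a : A` the operator `π a` is not injective.

The definitions are in `Pool/Agent/ZStar/Defs.lean`; the algebra is `Pool.Agent.ZStar.Alg`, an
inductive-limit type algebra over the Cantor space.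
-/

open Pool.Agent.ZStar

namespace Pool.Agent.Results.MP_098288_an.SimpleNotZStar

universe v

/-- **Disproof of Q1.**  There is a simple C*-algebra `A` that is not a `Z*`-algebra, yet for every
representation `π` of `A` on a nonzero complex Hilbert space no operator in `π(A)` is injective. -/
theorem result : ∃ (A : Type) (_ : NonUnitalCStarAlgebra A),
    IsSimpleCStar A ∧ ¬ IsZStarAlgebra A ∧
    ∀ (H : Type v) [NormedAddCommGroup H] [InnerProductSpace ℂ H] [CompleteSpace H] [Nontrivial H]
      (π : A →⋆ₙₐ[ℂ] (H →L[ℂ] H)) (a : A), ¬ Function.Injective (π a) := by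
  refine ⟨Alg, inferInstance, simple, not_zstar, ?_⟩
  intro H _ _ _ _ π a hinj
  obtain ⟨ξ, hξ, hker⟩ := kernel_of_rep π a
  apply hξ
  apply hinj
  rw [hker, map_zero]

end Pool.Agent.Results.MP_098288_an.SimpleNotZStar
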